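import Pool.Agent.Helper18_CMG.Pre
import Pool.Agent.Helper27_CMG.HOM
import Pool.Agent.Helper45_CMG.OPB

/-!
# Squad CMG: all rows composed
-/

set_option autoImplicit false

namespace Pool.Agent.CMG.H18

open Pool.Agent.LSG Pool.Agent.CMG

theorem opb_ : OpbStmt := Pool.Agent.CMG.H45.opb chr_ sur_ Pool.Agent.CMG.H27.hom

theorem ncg_ : NcgStmt := ncg_pre opb_

/-- every infinite completely metrizable group is l-stable, and S-stable if it is compact -/
theorem fnc_ : FncStmt := fnc Pool.Agent.CMG.H77.kle cpt_ ncg_

/-- every infinite compact metrizable group is l-stable and S-stable -/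
theorem compact_ (H : Type) [Group H] [TopologicalSpace H] [IsTopologicalGroup H] [CompactSpace H]
    [TopologicalSpace.MetrizableSpace H] [Infinite H] : LStable H ∧ SStable H :=
  compact_case cpt_ ncg_ H

end Pool.Agent.CMG.H18
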