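import Pool.Agent.CMG.Stmts
import Pool.Agent.Helper18_LPR.Asm
import Pool.Agent.Helper55_NPG.Asm

set_option autoImplicit false

open Set Topology
open scoped Pointwise

namespace Pool.Agent.CMG.H18

open Pool.Agent.LSG Pool.Agent.CMG

/-- a compact group is precompact -/
theorem precompact_of_compact (H : Type) [Group H] [TopologicalSpace H] [IsTopologicalGroup H]
    [CompactSpace H] (U : Set H) (hU : U ∈ nhds (1 : H)) :
    ∃ F : Finset H, (⋃ g ∈ F, g • U) = Set.univ := by
  have h1 : ∀ g : H, g • U ∈ nhds g := by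
    intro g
    have h := smul_mem_nhds_smul g hU
    simpa using h
  obtain ⟨F, hF⟩ := isCompact_univ.elim_nhds_subcover (fun g : H => g • U) (fun g _ => h1 g)
  exact ⟨F, Set.eq_univ_of_univ_subset hF.2⟩

/-- the compact case -/
theorem compact_case (h1 : CptStmt) (h2 : NcgStmt) (H : Type) [Group H] [TopologicalSpace H]
    [IsTopologicalGroup H] [CompactSpace H] [TopologicalSpace.MetrizableSpace H] [Infinite H] :
    LStable H ∧ SStable H := by
  by_cases ht : TotallyDisconnectedSpace H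
  · have hS : SStable H := h1 H
    exact ⟨Pool.Agent.LPR.H18.stl_ H hS, hS⟩
  · obtain ⟨γ, hγ, hadd, hne⟩ := h2 H ht
    exact Pool.Agent.LPR.H18.group_ H γ hγ hadd hne

/-- row FNC -/
theorem fnc (h0 : KleStmt) (h1 : CptStmt) (h2 : NcgStmt) : FncStmt := by
  intro H _ _ _ _ _
  by_cases hp : ∃ U ∈ nhds (1 : H), ∀ F : Finset H, (⋃ g ∈ F, g • U) ≠ Set.univ
  · refine ⟨(Pool.Agent.NPG.H55.np_ H hp).2, fun hc => ?_⟩
    obtain ⟨U, hU, hF⟩ := hp
    obtain ⟨F, hF'⟩ := precompact_of_compact H U hU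
    exact absurd hF' (hF F)
  · push Not at hp
    have hc : CompactSpace H := h0 H hp
    exact ⟨(compact_case h1 h2 H).1, fun _ => (compact_case h1 h2 H).2⟩

end Pool.Agent.CMG.H18
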