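import Pool.Agent.Helper18_CMG.FNC
import Pool.Agent.Helper27_CMG.BRO
import Pool.Agent.Helper77_CMG.KLE
import Pool.Agent.Helper75_CMG.KER
import Pool.Agent.Helper72_CMG.CNV
import Pool.Agent.Helper11_CMG.PWN
import Pool.Agent.Helper45_CMG.TRA
import Pool.Agent.Helper44_CMG.MON
import Pool.Agent.Helper63_CMG.CHR
import Pool.Agent.Helper1_CMG.ORT
import Pool.Agent.Helper6_CMG.EVA
import Pool.Agent.Helper52_CMG.CNT
import Pool.Agent.Helper19_CMG.SUR
import Pool.Agent.Helper8_CMG.NCG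
import Pool.Agent.Helper47_CMG.CPT
import Pool.Agent.Helper18_LSN.QMN

/-!
# Squad CMG: the rows composed, up to OPB
-/

set_option autoImplicit false

namespace Pool.Agent.CMG.H18

open Pool.Agent.LSG Pool.Agent.CMG

theorem pwn_ : PwnStmt := Pool.Agent.CMG.H11.pwn (Pool.Agent.CMG.H72.cnv Pool.Agent.CMG.H75.ker)

theorem chr_ : ChrStmt := Pool.Agent.CMG.H63.chr pwn_

theorem sur_ : SurStmt :=
  Pool.Agent.CMG.H19.sur (Pool.Agent.CMG.H6.eva Pool.Agent.CMG.H1.ort) Pool.Agent.CMG.H52.cnt chr_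
    Pool.Agent.LSN.H18.qmn

theorem cpt_ : CptStmt :=
  Pool.Agent.CMG.H47.cpt Pool.Agent.CMG.H27.bro Pool.Agent.LPR.H18.cpe_ Pool.Agent.LPR.H18.bri_

theorem ncg_pre (h : OpbStmt) : NcgStmt :=
  Pool.Agent.CMG.H8.ncg pwn_ Pool.Agent.CMG.H45.tra Pool.Agent.CMG.H44.mon h

end Pool.Agent.CMG.H18
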